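import Mathlib

namespace Pool.Agent.Results.MP_121ed1_lc.Q1

open MeasureTheory ProbabilityTheory Classical

/-- `s` is a source: it has in-degree 0. -/
def Src {V : Type} (E : V → V → Prop) (s : V) : Prop := ∀ u, ¬ E u s

/-- The secrecy closure of the wiretapped edge set `W`. -/
def Scl {V : Type} (E W : V → V → Prop) (u v : V) : Prop :=
  W u v ∨ (E u v ∧ ¬ ∃ s, Src E s ∧ Relation.ReflTransGen (fun a b => E a b ∧ ¬ W a b) s u)

section aux
variable {V : Type} (E W : V → V → Prop)

def R (v : V) (a : {s // Src E s}) : Prop :=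
  Relation.ReflTransGen (fun a b => E a b ∧ ¬ W a b) a.1 v

def D (v : V) (a b : {s // Src E s}) : Prop :=
  ∃ u, Relation.ReflTransGen E u v ∧ R E W u a ∧ R E W u b

noncomputable def y (v w : V) (x : {s // Src E s} → ℝ) :
    ({s // Src E s} ⊕ ({s // Src E s} × {s // Src E s})) → ℝ :=
  Sum.elim (fun a => if ¬ W v w ∧ R E W v a then x a else 0)
    (fun p => if D E W v p.1 p.2 then x p.1 - x p.2 else 0)

noncomputable def inp (v : V) (x : {s // Src E s} → ℝ) :
    (V → ({s // Src E s} ⊕ ({s // Src E s} × {s // Src E s})) → ℝ) × ℝ :=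
  (fun u => if E u v then y E W u v x else 0, if h : Src E v then x ⟨v, h⟩ else 0)

def Know (v : V) (h : ({s // Src E s} → ℝ) → ℝ) : Prop :=
  ∃ g : (V → ({s // Src E s} ⊕ ({s // Src E s} × {s // Src E s})) → ℝ) × ℝ → ℝ,
    Measurable g ∧ ∀ x, g (inp E W v x) = h x

variable {E W}

lemma K0 (v : V) : Know E W v (fun _ => 0) := ⟨fun _ => 0, measurable_const, fun _ => rfl⟩

lemma Kadd {v : V} {h k} (a : Know E W v h) (b : Know E W v k) :
    Know E W v (fun x => h x + k x) := by
  obtain ⟨g, hg, e⟩ := a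
  obtain ⟨g', hg', e'⟩ := b
  exact ⟨fun z => g z + g' z, hg.add hg', fun x => by simp only [e, e']⟩

lemma Ksub {v : V} {h k} (a : Know E W v h) (b : Know E W v k) :
    Know E W v (fun x => h x - k x) := by
  obtain ⟨g, hg, e⟩ := a
  obtain ⟨g', hg', e'⟩ := b
  exact ⟨fun z => g z - g' z, hg.sub hg', fun x => by simp only [e, e']⟩

lemma K1 {v : V} {a} (h : R E W v a) : Know E W v (fun x => x a) := by
  rcases Relation.ReflTransGen.cases_tail h with h1 | ⟨u, h1, h2⟩
  · obtain ⟨a, ha⟩ := a
    simp only at h1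
    subst h1
    exact ⟨fun z => z.2, measurable_snd, fun x => by simp [inp, ha]⟩
  · refine ⟨fun z => z.1 u (Sum.inl a), by fun_prop, fun x => ?_⟩
    have h3 : R E W u a := h1
    simp [inp, y, h2.1, h2.2, h3]

lemma K2 {v : V} {a b} (h : D E W v a b) : Know E W v (fun x => x a - x b) := by
  obtain ⟨u, h0, ha, hb⟩ := h
  rcases Relation.ReflTransGen.cases_tail h0 with h1 | ⟨c, h1, h2⟩
  · subst h1
    exact Ksub (K1 ha) (K1 hb)
  · refine ⟨fun z => z.1 c (Sum.inr (a, b)), by fun_prop, fun x => ?_⟩
    have h3 : D E W c a b := ⟨u, h1, ha, hb⟩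
    simp [inp, y, h2, h3]

lemma K3 (v w : V) (i) : Know E W v (fun x => y E W v w x i) := by
  rcases i with a | ⟨a, b⟩
  · by_cases h : ¬ W v w ∧ R E W v a
    · simpa [y, h] using K1 h.2
    · have : (fun x => y E W v w x (Sum.inl a)) = fun _ => 0 := by
        funext x; simp only [y, Sum.elim_inl]; rw [if_neg h]
      rw [this]; exact K0 v
  · by_cases h : D E W v a b
    · simpa [y, h] using K2 h
    · simpa [y, h] using K0 v

lemma Ksum {v : V} (t : Finset {s // Src E s}) (h : ∀ a, Know E W v (fun x => x a)) :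
    Know E W v (fun x => ∑ a ∈ t, x a) := by
  induction t using Finset.induction_on with
  | empty => simpa using K0 v
  | insert a t ha ih => simpa [Finset.sum_insert ha] using Kadd (h a) ih

lemma reach [Fintype V] {d : V} (hac : ∀ v, ¬ Relation.TransGen E v v)
    (hd : ∀ v, (∀ w, ¬ E v w) ↔ v = d) (v : V) : Relation.ReflTransGen E v d := by
  have hwf : WellFounded (fun a b => Relation.TransGen E b a) := by
    have : IsTrans V (fun a b => Relation.TransGen E b a) := ⟨fun a b c h1 h2 => h2.trans h1⟩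
    have : Std.Irrefl (fun a b => Relation.TransGen E b a) := ⟨fun a => hac a⟩
    exact Finite.wellFounded_of_trans_of_irrefl _
  induction v using hwf.induction with
  | _ v ih =>
    by_cases h : v = d
    · subst h; exact Relation.ReflTransGen.refl
    · have : ¬ ∀ w, ¬ E v w := fun h' => h ((hd v).1 h')
      push Not at this
      obtain ⟨w, hw⟩ := this
      exact Relation.ReflTransGen.head hw (ih w (Relation.TransGen.single hw))

lemma good {d : V} (hr : ∀ v, Relation.ReflTransGen E v d) {u v : V}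
    (h : Relation.EqvGen (fun u v => E u v ∧ ¬ Scl E W u v) u v) :
    (∀ a, R E W u a → Know E W d (fun x => x a)) ↔ (∀ a, R E W v a → Know E W d (fun x => x a)) := by
  induction h with
  | rel u v h =>
    obtain ⟨h1, h2⟩ := h
    have hw : ¬ W u v := fun h => h2 (Or.inl h)
    have hs : ∃ s, Src E s ∧ Relation.ReflTransGen (fun a b => E a b ∧ ¬ W a b) s u := by
      by_contra h; exact h2 (Or.inr ⟨h1, h⟩)
    obtain ⟨s, hs, hp⟩ := hs
    have hu : R E W u ⟨s, hs⟩ := hp
    have hv : R E W v ⟨s, hs⟩ := Relation.ReflTransGen.tail hp ⟨h1, hw⟩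
    constructor
    · intro H a ha
      simpa using Kadd (K2 (⟨v, hr v, ha, hv⟩ : D E W d a ⟨s, hs⟩)) (H _ hu)
    · intro H a ha
      exact H a (Relation.ReflTransGen.tail ha ⟨h1, hw⟩)
  | refl => exact Iff.rfl
  | symm _ _ _ ih => exact ih.symm
  | trans _ _ _ _ _ ih1 ih2 => exact ih1.trans ih2

end aux

lemma indep {S : Type} [Fintype S] {Ω : Type} [MeasurableSpace Ω] (P : Measure Ω)
    (X : S → Ω → ℝ) (hX : ∀ s, HasLaw (X s) (gaussianReal 0 1) P) (hI : iIndepFun X P) :
    IndepFun (fun ω (p : S × S) => X p.1 ω - X p.2 ω) (fun ω (_ : Unit) => ∑ s, X s ω) P := by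
  have hP := hI.isProbabilityMeasure
  have hG : ∀ s, HasGaussianLaw (X s) P := fun s => (hX s).hasGaussianLaw
  have hJ := hI.hasGaussianLaw hG
  have hL : ∀ s, MemLp (X s) 2 P := fun s => (hG s).memLp_two
  have hc : ∀ a, cov[X a, fun ω => ∑ s, X s ω; P] = 1 := by
    intro a
    rw [covariance_fun_sum_right hL (hL a), Finset.sum_eq_single a]
    · rw [covariance_self (hX a).aemeasurable, (hX a).variance_eq]; simp
    · intro b _ hb
      exact (hI.indepFun hb.symm).covariance_eq_zero (hL a) (hL b)
    · simp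
  apply HasGaussianLaw.indepFun_of_covariance_eval
  · let L : (S → ℝ) →L[ℝ] ((S × S → ℝ) × (Unit → ℝ)) :=
      ContinuousLinearMap.prod
        (ContinuousLinearMap.pi fun p : S × S =>
          (ContinuousLinearMap.proj p.1 : (S → ℝ) →L[ℝ] ℝ) - ContinuousLinearMap.proj p.2)
        (ContinuousLinearMap.pi fun _ : Unit =>
          ∑ s, (ContinuousLinearMap.proj s : (S → ℝ) →L[ℝ] ℝ))
    have h := hJ.map_fun L
    have e : (fun ω => L fun x => X x ω) =
        fun ω => (fun i : S × S => X i.1 ω - X i.2 ω, fun _ : Unit => ∑ s, X s ω) := by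
      funext ω
      ext <;> simp [L]
    rw [e] at h
    exact h
  · intro p _
    rw [covariance_fun_sub_left (hL _) (hL _) (memLp_finsetSum _ (fun s _ => hL s)), hc, hc]
    simp

theorem vec {V : Type} [Fintype V] (E W : V → V → Prop) (d : V)
    (hac : ∀ v, ¬ Relation.TransGen E v v) (hd : ∀ v, (∀ w, ¬ E v w) ↔ v = d)
    (hds : ¬ Src E d)
    (hC : ∀ s, Src E s → Relation.EqvGen (fun u v => E u v ∧ ¬ Scl E W u v) s d)
    {Ω : Type} [MeasurableSpace Ω] (P : Measure Ω) (X : {s // Src E s} → Ω → ℝ)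
    (hX : ∀ s, HasLaw (X s) (gaussianReal 0 1) P) (hI : iIndepFun X P) :
    ∃ (ι : Type) (_ : Fintype ι) (f : V → V → ((V → ι → ℝ) × ℝ) → ι → ℝ)
      (fd : (V → ι → ℝ) → ℝ) (Y : V → V → Ω → ι → ℝ),
      (∀ v w, Measurable (f v w)) ∧ Measurable fd ∧
      (∀ v w, E v w → ∀ ω, Y v w ω = f v w (fun u => if E u v then Y u v ω else 0,
        if h : Src E v then X ⟨v, h⟩ ω else 0)) ∧
      (∀ ω, fd (fun u => if E u d then Y u d ω else 0) = ∑ s, X s ω) ∧
      IndepFun (fun ω (e : {e : V × V // W e.1 e.2}) => Y e.1.1 e.1.2 ω)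
        (fun ω => ∑ s, X s ω) P := by
  have hr := reach hac hd
  have hk : ∀ a : {s // Src E s}, Know E W d (fun x => x a) := fun a =>
    (good hr (hC a.1 a.2)).2 (fun b hb => K1 hb) a Relation.ReflTransGen.refl
  obtain ⟨g, hg, eg⟩ := Ksum Finset.univ hk
  choose F hF eF using (K3 (E := E) (W := W))
  refine ⟨_, inferInstance, fun v w z i => F v w i z, fun z => g (z, 0),
    fun v w ω => y E W v w (fun s => X s ω), fun v w => measurable_pi_lambda _ (hF v w),
    hg.comp (measurable_id.prodMk measurable_const), ?_, ?_, ?_⟩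
  · intro v w _ ω
    funext i
    exact (eF v w i (fun s => X s ω)).symm
  · intro ω
    have := eg (fun s => X s ω)
    simp only [inp, dif_neg hds] at this
    exact this
  · have hψ : Measurable (fun t : Unit → ℝ => t ()) := measurable_pi_apply ()
    have hφ : Measurable (fun (z : {s // Src E s} × {s // Src E s} → ℝ)
        (e : {e : V × V // W e.1 e.2}) =>
        (Sum.elim (fun _ => 0) (fun p => if D E W e.1.1 p.1 p.2 then z p else 0) :
          ({s // Src E s} ⊕ ({s // Src E s} × {s // Src E s})) → ℝ)) := by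
      refine measurable_pi_lambda _ fun e => measurable_pi_lambda _ fun i => ?_
      rcases i with a | p
      · simp
      · by_cases hD : D E W e.1.1 p.1 p.2
        · simp only [Sum.elim_inr, hD, if_true]; fun_prop
        · simp [hD]
    have h := (indep P X hX hI).comp hφ hψ
    have e1 : (fun ω (e : {e : V × V // W e.1 e.2}) => y E W e.1.1 e.1.2 (fun s => X s ω)) =
        (fun (z : {s // Src E s} × {s // Src E s} → ℝ)
        (e : {e : V × V // W e.1 e.2}) =>
        (Sum.elim (fun _ => 0) (fun p => if D E W e.1.1 p.1 p.2 then z p else 0) :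
          ({s // Src E s} ⊕ ({s // Src E s} × {s // Src E s})) → ℝ)) ∘
          (fun ω (p : {s // Src E s} × {s // Src E s}) => X p.1 ω - X p.2 ω) := by
      funext ω e i
      rcases i with a | p
      · simp [y, e.2]
      · simp [y]
    rw [e1]
    exact h

theorem result {V : Type} [Fintype V] [Nontrivial V] (E W : V → V → Prop) (d : V)
    (_hW : ∀ u v, W u v → E u v) (hac : ∀ v, ¬ Relation.TransGen E v v)
    (hconn : ∀ u v, Relation.EqvGen E u v) (hd : ∀ v, (∀ w, ¬ E v w) ↔ v = d)
    (hC : ∀ s, Src E s → Relation.EqvGen (fun u v => E u v ∧ ¬ Scl E W u v) s d)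
    {Ω : Type} [MeasurableSpace Ω] (P : Measure Ω) (X : {s // Src E s} → Ω → ℝ)
    (hX : ∀ s, HasLaw (X s) (gaussianReal 0 1) P) (hI : iIndepFun X P) :
    ∃ (f : V → V → (V → ℝ) × ℝ → ℝ) (fd : (V → ℝ) → ℝ) (Y : V → V → Ω → ℝ),
      (∀ v w, Measurable (f v w)) ∧ Measurable fd ∧
      (∀ v w, E v w → ∀ ω, Y v w ω = f v w (fun u => if E u v then Y u v ω else 0,
        if h : Src E v then X ⟨v, h⟩ ω else 0)) ∧
      (∀ ω, fd (fun u => if E u d then Y u d ω else 0) = ∑ s, X s ω) ∧
      IndepFun (fun ω (e : {e : V × V // W e.1 e.2}) => Y e.1.1 e.1.2 ω)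
        (fun ω => ∑ s, X s ω) P := by
  have hds : ¬ Src E d := by
    intro hs
    have key : ∀ a b, Relation.EqvGen E a b → (a = d ↔ b = d) := by
      intro a b h
      induction h with
      | rel a b h =>
        constructor
        · intro ha; exact absurd h ((hd a).2 ha b)
        · intro hb; subst hb; exact absurd h (hs a)
      | refl => exact Iff.rfl
      | symm _ _ _ ih => exact ih.symm
      | trans _ _ _ _ _ ih1 ih2 => exact ih1.trans ih2
    obtain ⟨u, hu⟩ := exists_ne d
    exact hu ((key u d (hconn u d)).2 rfl)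
  obtain ⟨ι, _, f, fd, Y, hf, hfd, hY, hZ, hInd⟩ := vec E W d hac hd hds hC P X hX hI
  obtain ⟨e, he⟩ := exists_measurableEmbedding_real (ι → ℝ)
  have hr : Measurable he.invFun := he.measurable_invFun
  have hl : ∀ z, he.invFun (e z) = z := he.leftInverse_invFun
  have hm : ∀ v, Measurable (fun (z : V → ℝ) (u : V) =>
      if E u v then he.invFun (z u) else (0 : ι → ℝ)) := by
    intro v
    refine measurable_pi_lambda _ fun u => ?_
    by_cases h : E u v
    · simp only [h, if_true]; exact hr.comp (measurable_pi_apply u)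
    · simp only [h, if_false]; exact measurable_const
  have hq : ∀ v ω, (fun u => if E u v then
      he.invFun (if E u v then e (Y u v ω) else 0) else (0 : ι → ℝ)) =
      fun u => if E u v then Y u v ω else 0 := by
    intro v ω
    funext u
    by_cases h : E u v
    · simp only [h, if_true, hl]
    · simp only [h, if_false]
  refine ⟨fun v w z => e (f v w (fun u => if E u v then he.invFun (z.1 u) else 0, z.2)),
    fun z => fd (fun u => if E u d then he.invFun (z u) else 0), fun v w ω => e (Y v w ω),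
    fun v w => he.measurable.comp ((hf v w).comp (((hm v).comp measurable_fst).prodMk
      measurable_snd)), hfd.comp (hm d), ?_, ?_, ?_⟩
  · intro v w h ω
    simp only [hq]
    rw [← hY v w h ω]
  · intro ω
    simp only [hq]
    exact hZ ω
  · have hφ : Measurable (fun (z : {e : V × V // W e.1 e.2} → ι → ℝ)
        (t : {e : V × V // W e.1 e.2}) => e (z t)) :=
      measurable_pi_lambda _ fun t => he.measurable.comp (measurable_pi_apply t)
    exact hInd.comp hφ measurable_id

end Pool.Agent.Results.MP_121ed1_lc.Q1
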